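import Pool.Agent.K1H27.VM.Stm
import Pool.Agent.Y779.NK.CIRC

/-!
The integrals of the Cauchy kernel over circles, all exponents (piece CIRC of helper27's project VM).
-/

set_option autoImplicit false

namespace Pool.Agent.K1H26.VM

open MeasureTheory Set Metric Filter Topology
open scoped ENNReal NNReal

/-- the pointwise bound -/
lemma pointG {ρ α β : ℝ} (hρ : 0 < ρ) (hα : 0 ≤ α) (hβ : 0 ≤ β) (c w : ℂ) {r θ : ℝ}
    (hr : r ∈ Ioc (ρ / 2) ρ) (hθ : θ ∈ Ioc (0:ℝ) (2 * Real.pi)) :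
    (‖circleMap c r θ - w‖ₑ⁻¹) ^ (α + β) ≤ (‖r - ‖w - c‖‖ₑ⁻¹) ^ α *
      ((‖ρ / Real.pi‖ₑ⁻¹) ^ β * ∑ k ∈ Finset.Icc (-1 : ℤ) 3,
        (‖θ - (Complex.arg (w - c) + k * Real.pi)‖ₑ⁻¹) ^ β) := by
  have hpi := Real.pi_pos
  set l : ℂ := w - c with hl
  set η : ℝ := Complex.arg l with hη
  have hr0 : 0 < r := by linarith [hr.1]
  have e0 : circleMap c r θ - w = r * Complex.exp (θ * Complex.I) - l := by
    rw [circleMap, hl]; ring
  have n1 : ‖(r : ℂ) * Complex.exp (θ * Complex.I)‖ = r := by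
    rw [norm_mul, Complex.norm_exp_ofReal_mul_I, mul_one, Complex.norm_real,
      Real.norm_of_nonneg hr0.le]
  -- first lower bound
  have b1 : ‖r - ‖l‖‖ₑ ≤ ‖circleMap c r θ - w‖ₑ := by
    rw [enorm_le_iff_norm_le, e0]
    have := abs_norm_sub_norm_le ((r : ℂ) * Complex.exp (θ * Complex.I)) l
    rw [n1] at this
    exact this
  -- second lower bound
  obtain ⟨k, hk, hks⟩ := Pool.Agent.Y779.NK.sin_low (x := θ - η)
    (by have := Complex.arg_le_pi l; have := hθ.1; linarith)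
    (by have := (Complex.neg_pi_lt_arg l).le; have := hθ.2; linarith)
  have b2 : ‖ρ / Real.pi * (θ - (η + k * Real.pi))‖ₑ ≤ ‖circleMap c r θ - w‖ₑ := by
    rw [enorm_le_iff_norm_le, e0]
    have n2 : ‖(r : ℂ) * Complex.exp (θ * Complex.I) - l‖ =
        ‖(r : ℂ) * Complex.exp (((θ - η : ℝ) : ℂ) * Complex.I) - ‖l‖‖ := by
      have h1 : ‖Complex.exp (((-η : ℝ) : ℂ) * Complex.I)‖ = 1 := Complex.norm_exp_ofReal_mul_I _
      rw [← mul_one ‖(r : ℂ) * Complex.exp (θ * Complex.I) - l‖, ← h1, ← norm_mul]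
      congr 1
      have h2 : l = ‖l‖ * Complex.exp (η * Complex.I) := (Complex.norm_mul_exp_arg_mul_I l).symm
      have h3 : Complex.exp (η * Complex.I) * Complex.exp (((-η : ℝ) : ℂ) * Complex.I) = 1 := by
        rw [← Complex.exp_add]
        push_cast
        rw [show (η : ℂ) * Complex.I + -(η : ℂ) * Complex.I = 0 by ring, Complex.exp_zero]
      have h4 : Complex.exp (θ * Complex.I) * Complex.exp (((-η : ℝ) : ℂ) * Complex.I) =
          Complex.exp (((θ - η : ℝ) : ℂ) * Complex.I) := by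
        rw [← Complex.exp_add]
        push_cast
        congr 1
        ring
      rw [sub_mul, mul_assoc, h4]
      congr 1
      calc l * Complex.exp (((-η : ℝ) : ℂ) * Complex.I) =
            ‖l‖ * Complex.exp (η * Complex.I) * Complex.exp (((-η : ℝ) : ℂ) * Complex.I) := by
              rw [← h2]
        _ = ‖l‖ := by rw [mul_assoc, h3, mul_one]
    rw [n2]
    refine le_trans ?_ (Complex.abs_im_le_norm _)
    rw [Complex.sub_im, Complex.ofReal_im, sub_zero, Complex.im_ofReal_mul,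
      Complex.exp_ofReal_mul_I_im, Real.norm_eq_abs, abs_mul, abs_mul, abs_of_pos hr0,
      abs_of_pos (div_pos hρ hpi)]
    have e5 : θ - (η + k * Real.pi) = θ - η - k * Real.pi := by ring
    rw [e5]
    calc ρ / Real.pi * |θ - η - k * Real.pi| = ρ / 2 * (2 / Real.pi * |θ - η - k * Real.pi|) := by
          ring
      _ ≤ r * (2 / Real.pi * |θ - η - k * Real.pi|) := by
          apply mul_le_mul_of_nonneg_right hr.1.le
          positivity
      _ ≤ r * |Real.sin (θ - η)| := mul_le_mul_of_nonneg_left hks hr0.le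
  set q : ℝ≥0∞ := ‖circleMap c r θ - w‖ₑ⁻¹ with hq
  have q1 : q ^ (α + β) = q ^ α * q ^ β := ENNReal.rpow_add_of_nonneg _ _ hα hβ
  rw [q1]
  refine mul_le_mul' (ENNReal.rpow_le_rpow (ENNReal.inv_le_inv.2 b1) hα) ?_
  refine (ENNReal.rpow_le_rpow (ENNReal.inv_le_inv.2 b2) hβ).trans ?_
  have hρπ : ‖ρ / Real.pi‖ₑ ≠ 0 := by
    rw [enorm_ne_zero]
    exact (div_pos hρ hpi).ne'
  rw [enorm_mul, ENNReal.mul_inv (Or.inl hρπ) (Or.inl enorm_ne_top),
    ENNReal.mul_rpow_of_nonneg _ _ hβ]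
  refine mul_le_mul' le_rfl ?_
  exact Finset.single_le_sum (f := fun k : ℤ =>
    (‖θ - (η + k * Real.pi)‖ₑ⁻¹) ^ β) (fun _ _ => zero_le) hk

/-- the integral over the angle -/
lemma innerG {ρ α β : ℝ} (hρ : 0 < ρ) (hα : 0 ≤ α) (hβ : 0 < β) (hβ1 : β < 1) :
    ∃ D : ℝ≥0∞, D ≠ ⊤ ∧ ∀ c w : ℂ, ∀ r ∈ Ioc (ρ / 2) ρ,
      ∫⁻ θ in Ioc (0:ℝ) (2 * Real.pi), (‖circleMap c r θ - w‖ₑ⁻¹) ^ (α + β) ≤
        (‖r - ‖w - c‖‖ₑ⁻¹) ^ α * D := by
  have hpi := Real.pi_pos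
  obtain ⟨C1, hC1, h1⟩ := Pool.Agent.Y779.NK.pot1 hβ hβ1 0 (2 * Real.pi)
  have hρπ : ‖ρ / Real.pi‖ₑ ≠ 0 := by
    rw [enorm_ne_zero]
    exact (div_pos hρ hpi).ne'
  set b : ℝ≥0∞ := (‖ρ / Real.pi‖ₑ⁻¹) ^ β with hb
  have hbt : b ≠ ⊤ := ENNReal.rpow_ne_top_of_nonneg hβ.le (ENNReal.inv_ne_top.2 hρπ)
  refine ⟨b * (5 * C1), ENNReal.mul_ne_top hbt (ENNReal.mul_ne_top (by norm_num) hC1),
    fun c w r hr => ?_⟩
  have m0 : ∀ k : ℤ, Measurable fun θ : ℝ =>
      (‖θ - (Complex.arg (w - c) + k * Real.pi)‖ₑ⁻¹) ^ β := fun k =>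
    ((measurable_id.sub_const _).enorm.inv).pow_const _
  have m1 : Measurable fun θ : ℝ => ∑ k ∈ Finset.Icc (-1 : ℤ) 3,
      (‖θ - (Complex.arg (w - c) + k * Real.pi)‖ₑ⁻¹) ^ β :=
    Finset.measurable_sum _ fun k _ => m0 k
  refine (setLIntegral_mono' measurableSet_Ioc fun θ hθ => pointG hρ hα hβ.le c w hr hθ).trans ?_
  rw [lintegral_const_mul _ (m1.const_mul _), lintegral_const_mul _ m1,
    lintegral_finsetSum _ fun k _ => m0 k]
  refine mul_le_mul' le_rfl (mul_le_mul' le_rfl ?_)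
  refine (Finset.sum_le_sum fun k _ => h1 _).trans (le_of_eq ?_)
  rw [Finset.sum_const, nsmul_eq_mul]
  rfl

lemma meas_r (w c : ℂ) (γ : ℝ) : Measurable fun r : ℝ => (‖r - ‖w - c‖‖ₑ⁻¹) ^ γ :=
  ((measurable_id.sub_const _).enorm.inv).pow_const _

/-- the piece `S_CIRC` -/
theorem t_CIRC : Pool.Agent.K1H27.VM.S_CIRC := by
  intro ρ hρ
  refine ⟨fun e he => ?_, fun s hs hs2 => ?_⟩
  · set α : ℝ := min (1 / 2) (1 / (2 * e)) with hα
    have hα0 : 0 < α := lt_min (by norm_num) (by positivity)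
    have hα1 : α ≤ 1 / 2 := min_le_left _ _
    have hαe : α * e ≤ 1 / 2 := by
      have h : α ≤ 1 / (2 * e) := min_le_right _ _
      calc α * e ≤ 1 / (2 * e) * e := by gcongr
        _ = 1 / 2 := by field_simp
    obtain ⟨D, hD, hin⟩ := innerG (α := α) (β := 1 - α) hρ hα0.le (by linarith) (by linarith)
    obtain ⟨C2, hC2, h2⟩ := Pool.Agent.Y779.NK.pot1 (γ := α * e) (by positivity) (by linarith)
      (ρ / 2) ρ
    have hfin : C2 * D ^ e ≠ ⊤ := ENNReal.mul_ne_top hC2 (ENNReal.rpow_ne_top_of_nonneg he.le hD)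
    refine ⟨(C2 * D ^ e).toNNReal, fun c w => ?_⟩
    rw [ENNReal.coe_toNNReal hfin]
    have hin' : ∀ r ∈ Ioc (ρ / 2) ρ,
        (∫⁻ θ in Ioc (0:ℝ) (2 * Real.pi), ‖circleMap c r θ - w‖ₑ⁻¹) ^ e ≤
          (‖r - ‖w - c‖‖ₑ⁻¹) ^ (α * e) * D ^ e := by
      intro r hr
      have h3 := hin c w r hr
      rw [show α + (1 - α) = 1 by ring] at h3
      simp only [ENNReal.rpow_one] at h3
      refine (ENNReal.rpow_le_rpow h3 he.le).trans (le_of_eq ?_)
      rw [ENNReal.mul_rpow_of_nonneg _ _ he.le, ← ENNReal.rpow_mul]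
    refine (setLIntegral_mono' measurableSet_Ioc hin').trans ?_
    rw [lintegral_mul_const _ (meas_r w c _)]
    exact mul_le_mul' (h2 _) le_rfl
  · obtain ⟨D, hD, hin⟩ := innerG (α := s / 2) (β := s / 2) hρ (by positivity) (by positivity)
      (by linarith)
    obtain ⟨C2, hC2, h2⟩ := Pool.Agent.Y779.NK.pot1 (γ := s / 2) (by positivity) (by linarith)
      (ρ / 2) ρ
    have hfin : C2 * D ≠ ⊤ := ENNReal.mul_ne_top hC2 hD
    refine ⟨(C2 * D).toNNReal, fun c w => ?_⟩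
    rw [ENNReal.coe_toNNReal hfin]
    refine (setLIntegral_mono' measurableSet_Ioc (g := fun r : ℝ =>
      (‖r - ‖w - c‖‖ₑ⁻¹) ^ (s / 2) * D) fun r hr => ?_).trans ?_
    · have h3 := hin c w r hr
      rw [add_halves] at h3
      exact h3
    · rw [lintegral_mul_const _ (meas_r w c _)]
      exact mul_le_mul' (h2 _) le_rfl

end Pool.Agent.K1H26.VM
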