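import Pool.Agent.K1H27.VM.Stm

/-!
The exponential weight (piece WGT of helper27's project VM).
-/

set_option autoImplicit false

namespace Pool.Agent.K1H26.VM

open MeasureTheory Set Filter Topology
open scoped ENNReal NNReal

variable {S : Type} [MeasurableSpace S] (ν : Measure S) [IsFiniteMeasure ν] (τ : S → ℝ)

/-- the distribution function -/
noncomputable def Fd (s : ℝ) : ℝ := (ν {u | τ u < s}).toReal

lemma Fd_mono : Monotone (Fd ν τ) := by
  intro s s' h
  exact ENNReal.toReal_mono (measure_ne_top _ _) (measure_mono fun u (hu : τ u < s) => lt_of_lt_of_le hu h)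

lemma Fd_nonneg (s : ℝ) : 0 ≤ Fd ν τ s := ENNReal.toReal_nonneg

lemma Fd_ofReal (s : ℝ) : ENNReal.ofReal (Fd ν τ s) = ν {u | τ u < s} :=
  ENNReal.ofReal_toReal (measure_ne_top _ _)

lemma slab (hτ : Measurable τ) {σ t : ℝ} (h : σ ≤ t) :
    ν {y | σ ≤ τ y ∧ τ y < t} = ENNReal.ofReal (Fd ν τ t - Fd ν τ σ) := by
  have h1 : {y | σ ≤ τ y ∧ τ y < t} = {y | τ y < t} \ {y | τ y < σ} := by
    ext y
    simp only [mem_ofPred_eq, Set.mem_sdiff, not_lt]
    exact and_comm
  have h2 : {y | τ y < σ} ⊆ {y | τ y < t} := fun y (hy : τ y < σ) => lt_of_lt_of_le hy h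
  rw [h1, measure_sdiff h2
    (measurableSet_lt hτ measurable_const).nullMeasurableSet (measure_ne_top _ _),
    ENNReal.ofReal_sub _ (Fd_nonneg ν τ σ), Fd_ofReal, Fd_ofReal]

/-- the upper part of the distribution -/
lemma upper (hτ : Measurable τ) (t u : ℝ) :
    ν {y | τ y < t ∧ u < Fd ν τ (τ y)} ≤ ENNReal.ofReal (Fd ν τ t - u) := by
  have hle : ∀ σ : ℝ, σ < t → u < Fd ν τ σ →
      ν {y | σ ≤ τ y ∧ τ y < t} ≤ ENNReal.ofReal (Fd ν τ t - u) := by
    intro σ hσ hu
    rw [slab ν τ hτ hσ.le]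
    exact ENNReal.ofReal_le_ofReal (by linarith)
  by_cases hmin : ∃ σ0 : ℝ, (σ0 < t ∧ u < Fd ν τ σ0) ∧ ∀ σ : ℝ, σ < t → u < Fd ν τ σ → σ0 ≤ σ
  · obtain ⟨σ0, ⟨h1, h2⟩, h3⟩ := hmin
    refine (measure_mono fun y hy => ?_).trans (hle σ0 h1 h2)
    exact ⟨h3 _ hy.1 hy.2, hy.1⟩
  · push Not at hmin
    let ι : Type := {q : ℚ // (q : ℝ) < t ∧ u < Fd ν τ (q : ℝ)}
    have hsub : {y | τ y < t ∧ u < Fd ν τ (τ y)} ⊆ ⋃ q : ι, {y | ((q : ℚ) : ℝ) ≤ τ y ∧ τ y < t} := by
      rintro y ⟨hy1, hy2⟩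
      obtain ⟨σ, hσ1, hσ2, hσ3⟩ := hmin (τ y) ⟨hy1, hy2⟩
      obtain ⟨q, hq1, hq2⟩ := exists_rat_btwn hσ3
      refine mem_iUnion.mpr ⟨⟨q, hq2.trans hy1, lt_of_lt_of_le hσ2 (Fd_mono ν τ hq1.le)⟩, hq2.le, hy1⟩
    refine (measure_mono hsub).trans ?_
    rw [Directed.measure_iUnion]
    · exact iSup_le fun q => hle _ q.2.1 q.2.2
    · intro a b
      rcases le_total (a : ℚ) (b : ℚ) with h | h
      · refine ⟨a, le_rfl, fun y hy => ⟨le_trans (by exact_mod_cast h) hy.1, hy.2⟩⟩
      · refine ⟨b, fun y hy => ⟨le_trans (by exact_mod_cast h) hy.1, hy.2⟩, le_rfl⟩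

lemma integral_weight {c : ℝ} (hc : 0 < c) {f : ℝ} (hf : 0 ≤ f) :
    ∫⁻ u in Ioi (0 : ℝ), ENNReal.ofReal (f - u) * ENNReal.ofReal (c * Real.exp (c * u)) =
      ENNReal.ofReal (Real.exp (c * f) / c - f - 1 / c) := by
  have h1 : ∀ u : ℝ, ENNReal.ofReal (f - u) * ENNReal.ofReal (c * Real.exp (c * u)) =
      (Iic f).indicator (fun u => ENNReal.ofReal ((f - u) * (c * Real.exp (c * u)))) u := by
    intro u
    by_cases hu : u ≤ f
    · rw [indicator_of_mem (by exact hu), ← ENNReal.ofReal_mul (by linarith)]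
    · rw [indicator_of_notMem (by exact hu), ENNReal.ofReal_of_nonpos (by push Not at hu; linarith),
        zero_mul]
  simp_rw [h1]
  rw [lintegral_indicator measurableSet_Iic, Measure.restrict_restrict measurableSet_Iic]
  have h2 : Iic f ∩ Ioi 0 = Ioc 0 f := by
    ext x
    simp only [mem_inter_iff, mem_Iic, mem_Ioi, mem_Ioc]
    exact and_comm
  have hcont : Continuous fun u : ℝ => (f - u) * (c * Real.exp (c * u)) := by fun_prop
  rw [h2, ← ofReal_integral_eq_lintegral_ofReal]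
  · congr 1
    rw [← intervalIntegral.integral_of_le hf]
    have hd : ∀ u ∈ uIcc 0 f, HasDerivAt (fun u => (f - u) * Real.exp (c * u) + Real.exp (c * u) / c)
        ((f - u) * (c * Real.exp (c * u))) u := by
      intro u _
      have e1 : HasDerivAt (fun u : ℝ => Real.exp (c * u)) (Real.exp (c * u) * (c * 1)) u :=
        ((hasDerivAt_id u).const_mul c).exp
      have e2 : HasDerivAt (fun u : ℝ => f - u) (-1) u := (hasDerivAt_id u).const_sub f
      have e3 := (e2.mul e1).add (e1.div_const c)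
      refine e3.congr_deriv ?_
      field_simp
      ring
    rw [intervalIntegral.integral_eq_sub_of_hasDerivAt hd (hcont.intervalIntegrable _ _)]
    simp
    ring
  · exact hcont.integrableOn_Ioc
  · rw [EventuallyLE, ae_restrict_iff' measurableSet_Ioc]
    filter_upwards with u hu
    have : 0 ≤ f - u := by linarith [hu.2]
    show 0 ≤ (f - u) * (c * Real.exp (c * u))
    positivity

/-- the piece `S_WGT` -/
theorem t_WGT : Pool.Agent.K1H27.VM.S_WGT := by
  intro S _ ν _ τ hτ c hc t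
  have hF : Measurable (Fd ν τ) := (Fd_mono ν τ).measurable
  show ∫⁻ y in {y | τ y < t}, ENNReal.ofReal (Real.exp (c * Fd ν τ (τ y))) ∂ν ≤
    ENNReal.ofReal (c⁻¹ * Real.exp (c * Fd ν τ t))
  have hset : MeasurableSet {y | τ y < t} := measurableSet_lt hτ measurable_const
  have h1 := lintegral_comp_eq_lintegral_meas_lt_mul (ν.restrict {y | τ y < t})
    (f := fun y => Fd ν τ (τ y)) (g := fun u => c * Real.exp (c * u))
    (Eventually.of_forall fun y => Fd_nonneg ν τ _) (hF.comp hτ).aemeasurable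
    (fun s _ => (by fun_prop : Continuous fun u : ℝ => c * Real.exp (c * u)).intervalIntegrable _ _)
    (Eventually.of_forall fun s => by positivity)
  have h2 : ∀ f : ℝ, ∫ u in (0 : ℝ)..f, c * Real.exp (c * u) = Real.exp (c * f) - 1 := by
    intro f
    have hd : ∀ u ∈ uIcc 0 f, HasDerivAt (fun u => Real.exp (c * u)) (c * Real.exp (c * u)) u := by
      intro u _
      have e1 : HasDerivAt (fun u : ℝ => Real.exp (c * u)) (Real.exp (c * u) * (c * 1)) u :=
        ((hasDerivAt_id u).const_mul c).exp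
      convert e1 using 1
      ring
    rw [intervalIntegral.integral_eq_sub_of_hasDerivAt hd
      ((by fun_prop : Continuous fun u : ℝ => c * Real.exp (c * u)).intervalIntegrable _ _)]
    simp
  simp_rw [h2] at h1
  have h3 : ∫⁻ u in Ioi (0 : ℝ), (ν.restrict {y | τ y < t}) {y | u < Fd ν τ (τ y)} *
      ENNReal.ofReal (c * Real.exp (c * u)) ≤
      ENNReal.ofReal (Real.exp (c * Fd ν τ t) / c - Fd ν τ t - 1 / c) := by
    rw [← integral_weight hc (Fd_nonneg ν τ t)]
    refine lintegral_mono fun u => mul_le_mul' ?_ le_rfl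
    have hms : MeasurableSet {y | u < Fd ν τ (τ y)} := measurableSet_lt measurable_const (hF.comp hτ)
    rw [Measure.restrict_apply hms]
    refine le_trans (measure_mono fun y hy => ?_) (upper ν τ hτ t u)
    exact ⟨hy.2, hy.1⟩
  have h4 : ∀ y, ENNReal.ofReal (Real.exp (c * Fd ν τ (τ y))) =
      ENNReal.ofReal (Real.exp (c * Fd ν τ (τ y)) - 1) + 1 := by
    intro y
    have h5 : 1 ≤ Real.exp (c * Fd ν τ (τ y)) :=
      Real.one_le_exp (mul_nonneg hc.le (Fd_nonneg ν τ _))
    rw [← ENNReal.ofReal_one, ← ENNReal.ofReal_add (by linarith) zero_le_one]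
    congr 1
    ring
  simp_rw [h4]
  rw [lintegral_add_right _ measurable_const, h1, lintegral_one, Measure.restrict_apply_univ,
    ← Fd_ofReal]
  have h6 : 1 + c * Fd ν τ t ≤ Real.exp (c * Fd ν τ t) := by
    linarith [Real.add_one_le_exp (c * Fd ν τ t)]
  have h7 : 0 ≤ Real.exp (c * Fd ν τ t) / c - Fd ν τ t - 1 / c := by
    have : Real.exp (c * Fd ν τ t) / c - Fd ν τ t - 1 / c =
        (Real.exp (c * Fd ν τ t) - c * Fd ν τ t - 1) / c := by field_simp
    rw [this]
    exact div_nonneg (by linarith) hc.le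
  refine (add_le_add h3 le_rfl).trans ?_
  rw [← ENNReal.ofReal_add h7 (Fd_nonneg ν τ t)]
  apply ENNReal.ofReal_le_ofReal
  have h8 : 0 < 1 / c := by positivity
  have h9 : c⁻¹ * Real.exp (c * Fd ν τ t) = Real.exp (c * Fd ν τ t) / c := by field_simp
  rw [h9]
  linarith

end Pool.Agent.K1H26.VM
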